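import Pool.Agent.Lib.stark.TK1
import Pool.Agent.Lib.stark.TK2a
import Pool.Agent.Lib.stark.TK2b

set_option autoImplicit false

open Complex NumberField Filter Topology Ideal

namespace Pool.Agent.Lib.Tower15

open Pool.Agent.Lib.Stark Pool.Agent.Lib.Stark.TK2b

variable {K L : Type} [Field K] [NumberField K] [Field L] [NumberField L] [Algebra K L]

lemma absNorm_under {Q : Ideal (𝓞 L)} (hQ : Q.IsMaximal) (h : (absNorm Q).Prime) :
    absNorm (Q.under (𝓞 K)) = absNorm Q := by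
  have : Q.LiesOver (Q.under (𝓞 K)) := ⟨rfl⟩
  obtain ⟨f, hf⟩ := exists_relNorm_eq_pow_of_isPrime Q (Q.under (𝓞 K))
  have h1 : absNorm Q = absNorm (Q.under (𝓞 K)) ^ f := by
    rw [← absNorm_relNorm (𝓞 K) (𝓞 L) Q, hf, map_pow]
  rw [h1] at h
  rw [h1, h.eq_one_of_pow, pow_one]

lemma PS_big_le {n : ℕ} (hn : ∀ P : Ideal (𝓞 K), P.IsMaximal → (P.primesOver (𝓞 L)).ncard ≤ n)
    (T : Ideal (𝓞 K) → Prop)
    (h : ∀ Q : Ideal (𝓞 L), Q.IsMaximal → (absNorm Q).Prime → T (Q.under (𝓞 K))) {s : ℝ}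
    (hs : 1 < s) : PS (Big (K := L) 0) s ≤ n * PS T s := by
  classical
  rw [PS_eq, PS_eq]
  let u : MP L → MP K := fun Q => ⟨Q.1.under (𝓞 K), have := Q.2; IsMaximal.under _ _⟩
  refine (w_summ blockTK2a _ hs).tsum_le_of_sum_le fun S => ?_
  rw [← Finset.sum_fiberwise_of_maps_to (t := S.image u) (g := u)
    fun Q hQ => Finset.mem_image_of_mem u hQ]
  refine le_trans ?_ (mul_le_mul_of_nonneg_left ((w_summ blockTK2a T hs).sum_le_tsum (S.image u)
    fun _ _ => w_nonneg _ _ _) n.cast_nonneg)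
  rw [Finset.mul_sum]
  refine Finset.sum_le_sum fun P _ => ?_
  refine (Finset.sum_le_card_nsmul _ _ (w T s P) fun Q hQ => ?_).trans ?_
  · obtain rfl := (Finset.mem_filter.mp hQ).2
    by_cases hb : Big 0 Q.1
    · rw [w_pos s hb, w_pos s (h _ Q.2 hb.2.1), pTerm, pTerm, absNorm_under Q.2 hb.2.1]
    · rw [w_neg s hb]; exact w_nonneg _ _ _
  · rw [nsmul_eq_mul]
    refine mul_le_mul_of_nonneg_right (Nat.cast_le.mpr (le_trans ?_ (hn P.1 P.2))) (w_nonneg _ _ _)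
    have := P.2
    rw [← Set.ncard_coe_finset]
    refine Set.ncard_le_ncard_of_injOn Subtype.val (fun Q hQ => ?_) Subtype.val_injective.injOn
      (IsDedekindDomain.primesOver_finite _ _)
    obtain rfl := (Finset.mem_filter.mp (Finset.mem_coe.mp hQ)).2
    exact ⟨Q.2.isPrime, ⟨rfl⟩⟩

/-- the second inequality -/
theorem second_ineq {n : ℕ}
    (hn : ∀ P : Ideal (𝓞 K), P.IsMaximal → (P.primesOver (𝓞 L)).ncard ≤ n)
    {B : Type} [CommGroup B] [Finite B] (κ : Ideal (𝓞 K) → B) (hκ : RayHom ⊤ κ)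
    (hs : ∀ χ : B →* ℂˣ, (∀ I, Cop ⊤ I → χ (κ I) = 1) → χ = 1)
    (h : ∀ Q : Ideal (𝓞 L), Q.IsMaximal → (absNorm Q).Prime → κ (Q.under (𝓞 K)) = 1) :
    Nat.card B ≤ n := by
  classical
  have := finite_char B
  have := Fintype.ofFinite (B →* ℂˣ)
  choose k k1 k2 k3 using key blockTK1 blockTK2a top_ne_bot hκ
  have hc : (0 : ℝ) < Fintype.card (B →* ℂˣ) := by exact_mod_cast Fintype.card_pos
  have h3 := class_lim blockTK2a ⊤ κ 1 _ k3
  have h4 : (∑ χ : B →* ℂˣ, (χ 1⁻¹ : ℂ) * (1 - k χ)).re ≤ 1 := by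
    rw [re_sum, ← Finset.add_sum_erase _ _ (Finset.mem_univ 1), (k1 1).2 fun _ _ => rfl]
    refine add_le_of_nonpos_right ?_ |>.trans (by simp)
    refine Finset.sum_nonpos fun χ hχ => ?_
    have h5 : k χ ≠ 0 := fun h0 => (Finset.mem_erase.mp hχ).1 (hs χ ((k1 χ).1 h0))
    have h6 : (1 : ℝ) ≤ k χ := Nat.one_le_cast.mpr (Nat.pos_of_ne_zero h5)
    simpa using h6
  have h5 : (1 : ℝ) ≤ n * ((∑ χ : B →* ℂˣ, (χ 1⁻¹ : ℂ) * (1 - k χ)).re
      / Fintype.card (B →* ℂˣ)) + 0 := by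
    refine le_of_tendsto_of_tendsto (all (E := L) blockTK1 blockTK2a)
      ((Tendsto.const_mul (n : ℝ) h3).add (small (E := L) blockTK2a 0)) ?_
    filter_upwards [self_mem_nhdsWithin] with s hs
    have h6 := PS_big_le hn (fun P => Cop ⊤ P ∧ κ P = 1)
      (fun Q hQ hq => ⟨cop_top (IsMaximal.under _ _), h Q hQ hq⟩) hs
    have h7 : PS (fun _ : Ideal (𝓞 L) => True) s
        = PS (Big (K := L) 0) s + PS (fun P : Ideal (𝓞 L) => ¬ Big 0 P) s := by
      rw [PS_eq, PS_eq, PS_eq, ← (w_summ blockTK2a _ hs).tsum_add (w_summ blockTK2a _ hs)]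
      refine tsum_congr fun P => ?_
      by_cases hb : Big 0 P.1
      · rw [w_pos s hb, w_pos s trivial, w_neg s (T := fun P => ¬ Big 0 P) (not_not.mpr hb),
          add_zero]
      · rw [w_neg s hb, w_pos s trivial, w_pos s (T := fun P => ¬ Big 0 P) hb, zero_add]
    have h8 : 0 < s - 1 := sub_pos.2 hs
    simp only [h7]
    nlinarith
  rw [add_zero, ← mul_div_assoc, le_div_iff₀ hc, one_mul] at h5
  have h6 := h5.trans (mul_le_mul_of_nonneg_left h4 n.cast_nonneg)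
  rw [mul_one, Nat.cast_le, ← Nat.card_eq_fintype_card] at h6
  have : NeZero ((Monoid.exponent B : ℕ) : ℂ) := ⟨Nat.cast_ne_zero.mpr Monoid.exponent_ne_zero_of_finite⟩
  rwa [CommGroup.card_monoidHom_of_hasEnoughRootsOfUnity] at h6

end Pool.Agent.Lib.Tower15
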