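import Pool.Agent.Lib.Tower15.Alg
import Pool.Agent.Lib.Tower15.Second
import Pool.Agent.Lib.MP_4e64b4_nt.Cyclic

set_option autoImplicit false

open NumberField IsDedekindDomain WithZero Module
open scoped nonZeroDivisors Pointwise

namespace Pool.Agent.Lib.Tower15

open helper22.Val MP_4e64b4_nt Stark

variable {K F : Type} [Field K] [NumberField K] [Field F] [NumberField F] [Algebra K F]
  [IsGalois K F] {s : F ≃ₐ[K] F}

lemma eq_one_or (hd : finrank K F = 2) (hs : s ≠ 1) (g : F ≃ₐ[K] F) : g = 1 ∨ g = s := by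
  obtain ⟨y, -, hy⟩ := (Nat.card_eq_two_iff' (1 : F ≃ₐ[K] F)).mp
    ((IsGalois.card_aut_eq_finrank K F).trans hd)
  exact or_iff_not_imp_left.mpr fun h => (hy g h).trans (hy s hs).symm

lemma mul_self (hd : finrank K F = 2) (g : F ≃ₐ[K] F) : g * g = 1 := by
  rw [← sq, ← hd, ← IsGalois.card_aut_eq_finrank, pow_card_eq_one']

omit [NumberField K] [NumberField F] [IsGalois K F] in
lemma h90 (hs : s ≠ 1) (h2 : s * s = 1) {a : F} (ha : s a * a = 1) : ∃ y, y ≠ 0 ∧ a * s y = y := by
  have hss : ∀ z, s (s z) = z := fun z => by rw [← AlgEquiv.mul_apply, h2, AlgEquiv.one_apply]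
  obtain ⟨z, hz⟩ : ∃ z, z + a * s z ≠ 0 := by
    by_contra h
    push Not at h
    have h1 := h 1
    rw [map_one, mul_one, add_eq_zero_iff_neg_eq] at h1
    refine hs (AlgEquiv.ext fun z => ?_)
    have h3 := h z
    rw [← h1] at h3
    rw [AlgEquiv.one_apply]
    linear_combination -h3
  refine ⟨_, hz, ?_⟩
  rw [map_add, map_mul, hss]
  linear_combination z * ha

/-- the divisor of the extension of an ideal -/
noncomputable def dv (F : Type) [Field F] [NumberField F] [Algebra K F] (J : Ideal (𝓞 K)) :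
    HeightOneSpectrum (𝓞 F) →₀ ℤ :=
  Finsupp.ofSupportFinite
    (fun w => -FractionalIdeal.count K (w.under (𝓞 K)) (J : FractionalIdeal (𝓞 K)⁰ K)) (by
      refine ((Filter.eventually_cofinite.mp (FractionalIdeal.finite_factors
        (J : FractionalIdeal (𝓞 K)⁰ K))).preimage' (f := fun w : HeightOneSpectrum (𝓞 F) =>
          w.under (𝓞 K)) fun v _ => ?_).subset fun w hw => by simpa using hw
      have := v.isMaximal
      refine ((IsDedekindDomain.primesOver_finite v.asIdeal (𝓞 F)).preimage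
        HeightOneSpectrum.asIdeal_injective.injOn).subset ?_
      rintro w rfl
      exact ⟨w.isPrime, ⟨rfl⟩⟩)

omit [IsGalois K F] in
lemma dv_apply (J : Ideal (𝓞 K)) (w : HeightOneSpectrum (𝓞 F)) :
    dv F J w = -FractionalIdeal.count K (w.under (𝓞 K)) (J : FractionalIdeal (𝓞 K)⁰ K) := rfl

omit [IsGalois K F] in
open Classical in
lemma dv_prime (v : HeightOneSpectrum (𝓞 K)) (w : HeightOneSpectrum (𝓞 F)) :
    dv F v.asIdeal w = if w.under (𝓞 K) = v then -1 else 0 := by
  rw [dv_apply, FractionalIdeal.count_maximal]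
  simp only [eq_comm (a := v)]
  split_ifs <;> simp

omit [NumberField K] [IsGalois K F] in
lemma smul_ne {w : HeightOneSpectrum (𝓞 F)} (hp : (Ideal.absNorm w.asIdeal).Prime)
    (h : s ∉ w.asIdeal.inertia (F ≃ₐ[K] F)) : s • w ≠ w := fun e => h fun x => by
  have hc : Nat.card (𝓞 F ⧸ w.asIdeal) = Ideal.absNorm w.asIdeal := by
    rw [Ideal.absNorm_apply, Submodule.cardQuot_apply]
  have : Fact (Ideal.absNorm w.asIdeal).Prime := ⟨hp⟩
  have := w.isPrime
  obtain ⟨n, hn⟩ := mem_zmultiples_of_prime_card hc (g := (1 : 𝓞 F ⧸ w.asIdeal)) one_ne_zero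
    (g' := Ideal.Quotient.mk _ x)
  have h1 : x - n ∈ w.asIdeal := by
    rw [← Ideal.Quotient.eq, ← hn]
    simp
  have h2 : s • (x - n) ∈ w.asIdeal := by
    have := Ideal.smul_mem_pointwise_smul s _ _ h1
    rwa [← act_asIdeal, e] at this
  rw [smul_sub, show s • (n : 𝓞 F) = n from
    map_intCast (MulSemiringAction.toRingHom (F ≃ₐ[K] F) _ s) n] at h2
  have := sub_mem h2 h1
  rwa [sub_sub_sub_cancel_right] at this

open Classical in
/-- Hasse norm theorem for an everywhere unramified quadratic extension -/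
theorem hasse [IsUnramifiedAtInfinitePlaces K F] (hd : finrank K F = 2) (hs : s ≠ 1)
    (hur : ∀ w : HeightOneSpectrum (𝓞 F), w.asIdeal.inertia (F ≃ₐ[K] F) = ⊥) {x : K} (hx : x ≠ 0)
    (h : ∀ w : HeightOneSpectrum (𝓞 F), s • w = w →
      (2 : ℤ) ∣ log (w.valuation F (algebraMap K F x))) :
    ∃ y : F, algebraMap K F x = y * s y := by
  have hG : Nat.card (F ≃ₐ[K] F) = 2 := (IsGalois.card_aut_eq_finrank K F).trans hd
  have h2 := mul_self hd s
  have hss : ∀ z, s (s z) = z := fun z => by rw [← AlgEquiv.mul_apply, h2, AlgEquiv.one_apply]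
  have hsw : ∀ w : HeightOneSpectrum (𝓞 F), s • s • w = w := fun w => by
    rw [smul_smul, h2, one_smul]
  have hsi : s⁻¹ = s := inv_eq_of_mul_eq_one_right h2
  have hv : ∀ (w : HeightOneSpectrum (𝓞 F)) (x : K),
      w.valuation F (algebraMap K F x) = (w.under (𝓞 K)).valuation K x := fun w =>
    unr_of_inertia (p := 1) (fun w _ => hur w) w (by
      simpa using (Ideal.ne_top_iff_one _).mp w.isPrime.ne_top)
  let φ : Additive Fˣ →+ (HeightOneSpectrum (𝓞 F) →₀ ℤ) := AddMonoidHom.mk'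
    (fun x => Finsupp.ofSupportFinite (fun w => log (w.valuation F (x.toMul : Fˣ)))
      ((finite_val_ne_one x.toMul.ne_zero).subset fun w hw h => hw (by simp only [h, log_one])))
    fun x y => by
      ext w
      simp only [Finsupp.ofSupportFinite_coe, Finsupp.add_apply, toMul_add, Units.val_mul, map_mul]
      exact log_mul (val_ne_zero x.toMul.ne_zero) (val_ne_zero y.toMul.ne_zero)
  have hφ : ∀ x w, φ x w = log (w.valuation F (x.toMul : Fˣ)) := fun _ _ => rfl
  clear_value φ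
  let σ : Additive Fˣ →+ Additive Fˣ := (Units.map (s : F →* F)).toAdditive
  have hσ : ∀ x, ((σ x).toMul : Fˣ) = s ((x.toMul : Fˣ) : F) := fun _ => rfl
  clear_value σ
  have ext : ∀ {a b : Additive Fˣ}, ((a.toMul : Fˣ) : F) = (b.toMul : Fˣ) → a = b := fun h =>
    Additive.toMul.injective (Units.ext h)
  have hσσ : ∀ a, σ (σ a) = a := fun a => ext (by rw [hσ, hσ, hss])
  let τ : (HeightOneSpectrum (𝓞 F) →₀ ℤ) →+ (HeightOneSpectrum (𝓞 F) →₀ ℤ) :=
    (Finsupp.domCongr (MulAction.toPerm s)).toAddMonoidHom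
  have hτ : ∀ y w, τ y w = y (s • w) := fun y w => by
    change y (s⁻¹ • w) = _
    rw [hsi]
  clear_value τ
  have hττ : ∀ y, τ (τ y) = y := fun y => by ext w; rw [hτ, hτ, hsw]
  have hφσ : ∀ a, φ (σ a) = τ (φ a) := fun a => by
    ext w
    rw [hτ, hφ, hφ, hσ, ← hsi]
    exact congrArg log ((congrArg (fun g : F ≃ₐ[K] F => w.valuation F (g _)) hsi).trans
      (val_act' s w _))
  have : φ.range.FiniteIndex := by
    obtain ⟨cl, hcl⟩ := exists_cl F
    refine AddSubgroup.finiteIndex_of_le (H := cl.ker) fun c hc => ?_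
    obtain ⟨x, hx, h⟩ := hcl _ hc
    exact ⟨Additive.ofMul (Units.mk0 x hx), Finsupp.ext fun w => (hφ _ w).trans (h w)⟩
  have hfix : ∀ a ∈ (σ - AddMonoidHom.id _).ker, ∃ e, algebraMap K F e = (a.toMul : Fˣ) :=
    fun a ha => (IsGalois.mem_range_algebraMap_iff_fixed (F := K) _).mpr fun g => by
      rcases eq_one_or hd hs g with rfl | rfl
      · rfl
      · rw [← hσ, show σ a = a from sub_eq_zero.mp ha]
  have hU : ∀ x ∈ φ.ker, ∀ w : HeightOneSpectrum (𝓞 F), w.valuation F (x.toMul : Fˣ) = 1 :=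
    fun x hx w => eq_one_of_log x.toMul.ne_zero ((hφ x w).symm.trans (DFunLike.congr_fun hx _))
  let ι := (Units.map (algebraMap (𝓞 F) F : 𝓞 F →* F)).toAdditive
  let ι' := (Units.map ((algebraMap K F).comp (algebraMap (𝓞 K) K) : 𝓞 K →* F)).toAdditive
  obtain ⟨f1, -, f2⟩ := finrank_of_le_range ι (Units.map_injective (IsFractionRing.injective _ _))
    φ.ker fun x hx => by
      obtain ⟨u, hu⟩ := exists_unit (hU x hx)
      exact ⟨Additive.ofMul u, Units.ext hu⟩
  obtain ⟨-, f3, -⟩ := finrank_of_le_range ι' (Units.map_injective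
    ((algebraMap K F).injective.comp (IsFractionRing.injective _ _)))
    (φ.ker ⊓ (σ - AddMonoidHom.id _).ker) fun x hx => by
      obtain ⟨e, he⟩ := hfix x hx.2
      obtain ⟨u, hu⟩ := exists_unit (x := e) fun v => by
        obtain ⟨w, rfl⟩ := exists_under_eq F v
        rw [← hv, he, hU x hx.1]
      exact ⟨Additive.ofMul u, Units.ext ((congrArg (algebraMap K F) hu).trans he)⟩
  have f4 := f2 (by
    rw [AddSubgroup.relIndex_eq_one.mpr]
    · exact one_ne_zero
    rintro _ ⟨u, rfl⟩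
    refine Finsupp.ext fun w => ?_
    rw [hφ]
    exact (congrArg log (val_unit u.toMul w)).trans log_one)
  have hσU : ∀ a ∈ φ.ker, σ a ∈ φ.ker := fun a ha => (hφσ a).trans (by rw [ha, map_zero])
  obtain ⟨g1, g2⟩ := herbrand_sub (σ - AddMonoidHom.id _) (σ + AddMonoidHom.id _) φ.ker
    (fun a => by simp [hσσ, add_comm]) (fun a => by simp [hσσ]) (fun a => by simp [two_nsmul])
    (fun a ha => sub_mem (hσU a ha) ha) (fun a ha => add_mem (hσU a ha) ha) (by
      have h1 := IsUnramifiedAtInfinitePlaces.card_infinitePlace K F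
      rw [Units.finrank_eq, Units.rank] at f3 f4
      have := Fintype.card_pos (α := InfinitePlace K)
      rw [hd] at h1
      omega)
  obtain ⟨y, hy⟩ := exists_norm Nat.prime_two hG (φ (.ofMul (Units.mk0 (algebraMap K F x)
    ((map_ne_zero _).mpr hx)))) (fun g w => by
      simp only [hφ, toMul_ofMul, Units.val_mk0, hv, under_act]) fun w hw => by
      rw [hφ]; exact h w (hw s)
  suffices H : ((σ - AddMonoidHom.id _).ker.map φ ⊔ (τ + AddMonoidHom.id _).range).relIndex
      (τ - AddMonoidHom.id _).ker ≤ 2 by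
   obtain ⟨a, ha⟩ := hasse_abs (σ - AddMonoidHom.id _) (σ + AddMonoidHom.id _)
    (τ - AddMonoidHom.id _) (τ + AddMonoidHom.id _) φ (fun a => by simp [hφσ])
    (fun a => by simp [hφσ]) (fun a => by simp [hσσ, add_comm]) (fun a => by simp [hσσ])
    (fun a => by simp [hττ, add_comm]) (fun a => by simp [hττ]) (fun a ha => by
      obtain ⟨y, h0, hy⟩ := h90 hs h2 (a := (a.toMul : Fˣ)) (by
        rw [← hσ]; exact congrArg (fun z : Additive Fˣ => ((z.toMul : Fˣ) : F)) ha)
      refine ⟨-.ofMul (Units.mk0 y h0), ?_⟩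
      rw [map_neg, AddMonoidHom.sub_apply, neg_sub, eq_sub_iff_add_eq]
      exact ext (by rw [toMul_add, Units.val_mul, hσ]; exact hy)) g1 g2 H
    (x := .ofMul (Units.mk0 (algebraMap K F x) ((map_ne_zero _).mpr hx)))
    (sub_eq_zero.mpr (ext (by rw [hσ]; exact s.commutes x))) (y := y) (by
      ext w
      rw [hy, Finset.sum_eq_add_of_mem s 1 (Finset.mem_univ _) (Finset.mem_univ _) hs
        fun g _ hg => ((eq_one_or hd hs g).elim hg.2 hg.1).elim]
      simp [hτ, hsi])
   refine ⟨(a.toMul : Fˣ), ?_⟩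
   rw [← hσ, mul_comm]
   exact congrArg (fun z : Additive Fˣ => ((z.toMul : Fˣ) : F)) ha
  set W := (σ - AddMonoidHom.id _).ker.map φ ⊔ (τ + AddMonoidHom.id _).range with hW
  set I0 := (τ - AddMonoidHom.id _).ker with hI0
  have hI : ∀ y, y ∈ I0 ↔ ∀ w, y (s • w) = y w := fun y => by
    simp [hI0, sub_eq_zero, Finsupp.ext_iff, hτ]
  rcases eq_or_ne (W.relIndex I0) 0 with h0 | h0
  · rw [h0]; exact zero_le_two
  have : (W.addSubgroupOf I0).FiniteIndex := ⟨h0⟩
  have hdv : ∀ J : Ideal (𝓞 K), dv F J ∈ I0 := fun J => (hI _).mpr fun w => by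
    rw [dv_apply, dv_apply, under_act]
  let π := QuotientAddGroup.mk' (W.addSubgroupOf I0)
  have hπ : ∀ J : Ideal (𝓞 K), dv F J ∈ W → Multiplicative.ofAdd (π ⟨dv F J, hdv J⟩) = 1 :=
    fun J hJ => (QuotientAddGroup.eq_zero_iff _).mpr hJ
  refine second_ineq (K := K) (L := F) (B := Multiplicative (I0 ⧸ W.addSubgroupOf I0))
    (fun P hP => ?_) (fun J => .ofAdd (π ⟨dv F J, hdv J⟩)) ⟨fun I J hI hJ => ?_,
      fun α h0 _ _ => hπ _ (AddSubgroup.mem_sup_left ?_)⟩ (fun χ hχ => ?_)
    fun Q hQ hq => hπ _ (AddSubgroup.mem_sup_right ?_)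
  · exact Nat.le_of_dvd two_pos ⟨_, hG.symm.trans
      (Ideal.ncard_primesOver_mul_ramificationIdxIn_mul_inertiaDegIn P (𝓞 F) (F ≃ₐ[K] F)).symm⟩
  · rw [← ofAdd_add, ← map_add]
    congr 2
    ext w
    simp only [AddSubgroup.coe_add, Finsupp.add_apply, dv_apply, FractionalIdeal.coeIdeal_mul]
    rw [FractionalIdeal.count_mul K _ (FractionalIdeal.coeIdeal_ne_zero.mpr hI.2)
      (FractionalIdeal.coeIdeal_ne_zero.mpr hJ.2), neg_add]
  · have h1 : (α : K) ≠ 0 := by simpa using h0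
    refine ⟨.ofMul (Units.mk0 (algebraMap K F α) ((map_ne_zero _).mpr h1)),
      sub_eq_zero.mpr (ext (by rw [hσ]; exact s.commutes _)), ?_⟩
    ext w
    rw [hφ, dv_apply, FractionalIdeal.coeIdeal_span_singleton, count_span h1, neg_neg, ← hv]
    rfl
  · choose c hc using exists_under_eq (E := K) F
    refine MonoidHom.ext fun b => ?_
    obtain ⟨⟨y, hy⟩, hb⟩ := QuotientAddGroup.mk'_surjective (W.addSubgroupOf I0) b.toAdd
    have e : (⟨y, hy⟩ : I0) = ∑ v ∈ y.support.image (·.under (𝓞 K)),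
        (-y (c v)) • ⟨dv F v.asIdeal, hdv _⟩ := by
      ext w
      have h1 : y (c (w.under (𝓞 K))) = y w := by
        obtain ⟨g, hg⟩ := exists_act_eq (hc (w.under (𝓞 K))).symm
        rcases eq_one_or hd hs g with rfl | rfl
        · rw [← hg, one_smul]
        · rw [← hg, (hI y).mp hy]
      simp only [AddSubgroup.val_finsetSum, AddSubgroup.coe_zsmul, Finsupp.finsetSum_apply,
        Finsupp.smul_apply, dv_prime, smul_eq_mul, mul_ite, mul_zero, Finset.sum_ite_eq, h1]
      split_ifs with h3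
      · ring
      · by_contra h4
        exact h3 (Finset.mem_image_of_mem _ (Finsupp.mem_support_iff.mpr h4))
    have : (⟨y, hy⟩ : I0) ∈ ((MonoidHom.toAdditiveRight χ).comp π).ker := by
      rw [e]
      exact sum_mem fun v _ => zsmul_mem (hχ v.asIdeal (TK2b.cop_top v.isMaximal)) _
    rw [← ofAdd_toAdd b, ← hb]
    exact this
  · let w : HeightOneSpectrum (𝓞 F) := ⟨Q, hQ.isPrime, TK2b.ne_bot hQ⟩
    have hw : s • w ≠ w := smul_ne hq fun h => hs ((hur w).le h)
    refine ⟨-Finsupp.single w 1, ?_⟩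
    ext w'
    rw [show Q.under (𝓞 K) = (w.under (𝓞 K)).asIdeal from rfl, dv_prime]
    simp only [AddMonoidHom.add_apply, AddMonoidHom.id_apply, Finsupp.add_apply, hτ,
      Finsupp.neg_apply, Finsupp.single_apply]
    by_cases h1 : w = w'
    · subst h1
      simp [hw.symm]
    by_cases h3 : w = s • w'
    · simp [h3, under_act, h3 ▸ h1]
    · rw [if_neg h1, if_neg h3, if_neg, neg_zero, add_zero]
      intro e
      obtain ⟨g, hg⟩ := exists_act_eq e
      rcases eq_one_or hd hs g with rfl | rfl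
      · exact h1 (by simpa using hg.symm)
      · exact h3 hg.symm

lemma inertia_eq_bot (w : HeightOneSpectrum (𝓞 F)) (h : w.asIdeal.ramificationIdx (𝓞 K) = 1) :
    w.asIdeal.inertia (F ≃ₐ[K] F) = ⊥ := by
  have : w.asIdeal.LiesOver (w.under (𝓞 K)).asIdeal := ⟨rfl⟩
  have := w.isPrime
  have := (w.under (𝓞 K)).isMaximal
  rw [← Subgroup.card_eq_one, Ideal.card_inertia_eq_ramificationIdxIn (w.under (𝓞 K)).asIdeal,
    Ideal.ramificationIdxIn_eq_ramificationIdx _ w.asIdeal (F ≃ₐ[K] F), h]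

lemma inertia_eq_bot_of_different (h : differentIdeal (𝓞 K) (𝓞 F) = ⊤)
    (w : HeightOneSpectrum (𝓞 F)) : w.asIdeal.inertia (F ≃ₐ[K] F) = ⊥ := by
  have := w.isPrime
  have : Algebra.IsUnramifiedAt (𝓞 K) w.asIdeal := by
    let _ : Algebra (FractionRing (𝓞 K)) (FractionRing (𝓞 F)) := FractionRing.liftAlgebra _ _
    rw [← not_dvd_differentIdeal_iff, h, Ideal.dvd_iff_le, top_le_iff]
    exact w.isPrime.ne_top
  exact inertia_eq_bot w Ideal.ramificationIdx_eq_one_of_isUnramifiedAt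

/-- totally real form, ramification indices -/
theorem hasse_real [IsTotallyReal F] (hd : finrank K F = 2) (hs : s ≠ 1)
    (hur : ∀ P : Ideal (𝓞 F), P.IsPrime → P ≠ ⊥ → P.ramificationIdx (𝓞 K) = 1) {x : K}
    (hx : x ≠ 0) (h : ∀ w : HeightOneSpectrum (𝓞 F), s • w.asIdeal = w.asIdeal →
      (2 : ℤ) ∣ log (w.valuation F (algebraMap K F x))) :
    ∃ y : F, algebraMap K F x = y * s y :=
  have : IsUnramifiedAtInfinitePlaces K F := ⟨fun w => (IsTotallyReal.isReal w).isUnramified K⟩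
  hasse hd hs (fun w => inertia_eq_bot w (hur _ w.isPrime w.ne_bot)) hx
    fun w hw => h w (congrArg HeightOneSpectrum.asIdeal hw)

/-- totally real form, trivial different -/
theorem hasse_different [IsTotallyReal F] (hd : finrank K F = 2) (hs : s ≠ 1)
    (hur : differentIdeal (𝓞 K) (𝓞 F) = ⊤) {x : K}
    (hx : x ≠ 0) (h : ∀ w : HeightOneSpectrum (𝓞 F), s • w.asIdeal = w.asIdeal →
      (2 : ℤ) ∣ log (w.valuation F (algebraMap K F x))) :
    ∃ y : F, algebraMap K F x = y * s y :=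
  have : IsUnramifiedAtInfinitePlaces K F := ⟨fun w => (IsTotallyReal.isReal w).isUnramified K⟩
  hasse hd hs (inertia_eq_bot_of_different hur) hx
    fun w hw => h w (congrArg HeightOneSpectrum.asIdeal hw)

end Pool.Agent.Lib.Tower15
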