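import Pool.Agent.Lib.MP_4e64b4_nt.Herbrand

set_option autoImplicit false

open AddSubgroup Module

namespace Pool.Agent.Lib.Tower15

open Pool.Agent.Lib.MP_4e64b4_nt

section
variable {A I B : Type*} [AddCommGroup A] [AddCommGroup I] [AddCommGroup B]

variable (B) in
/-- index of `n B` in a finitely generated group -/
lemma index_nsmul [Module.Finite ℤ B] {n : ℕ} (hn : n ≠ 0) :
    (nsmulAddMonoidHom (α := B) n).range.index =
      n ^ finrank ℤ B * Nat.card (nsmulAddMonoidHom (α := B) n).ker ∧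
      Nat.card (nsmulAddMonoidHom (α := B) n).ker ≠ 0 := by
  let T := AddCommGroup.torsion B
  have : Module.Finite ℤ T := inferInstanceAs (Module.Finite ℤ T.toIntSubmodule)
  have hT : Finite T := Module.finite_of_fg_torsion T (by
    rw [← isAddTorsion_iff_isTorsion_int]; exact AddCommMonoid.addTorsion.isAddTorsion)
  let π : B →+ B ⧸ T := QuotientAddGroup.mk' T
  have hπ : Function.Surjective π := QuotientAddGroup.mk'_surjective T
  have : Module.Finite ℤ (B ⧸ T) := Module.Finite.of_surjective π.toIntLinearMap hπ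
  have : IsAddTorsionFree (B ⧸ T) := inferInstance
  have h1 := index_range_nsmul (B ⧸ T) n
  have h2 : finrank ℤ (B ⧸ T) = finrank ℤ B := by
    have h := T.toIntSubmodule.finrank_quotient_add_finrank
    rw [show finrank ℤ T.toIntSubmodule = 0 from finrank_eq_zero_iff_isTorsion.mpr (by
      rw [← isAddTorsion_iff_isTorsion_int]; exact isAddTorsion_of_finite (G := T)), add_zero] at h
    exact h
  have h3 : (nsmulAddMonoidHom (α := B) n).range.map π = (nsmulAddMonoidHom (α := B ⧸ T) n).range := by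
    ext x
    obtain ⟨y, rfl⟩ := hπ x
    constructor
    · rintro ⟨_, ⟨z, rfl⟩, e⟩
      exact ⟨π z, by rw [← e]; simp⟩
    · rintro ⟨z, e⟩
      obtain ⟨z, rfl⟩ := hπ z
      exact ⟨n • z, ⟨z, rfl⟩, by rw [← e]; simp⟩
  have h4 := index_map (H := (nsmulAddMonoidHom (α := B) n).range) π
  rw [h3, h1, h2, AddMonoidHom.range_eq_top.mpr hπ, index_top, mul_one,
    QuotientAddGroup.ker_mk'] at h4
  have h5 : (nsmulAddMonoidHom (α := B) n).range.addSubgroupOf T
      = (nsmulAddMonoidHom (α := T) n).range := by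
    ext x
    constructor
    · rintro ⟨z, e⟩
      refine ⟨⟨z, ?_⟩, Subtype.ext e⟩
      have h : IsOfFinAddOrder (n • z) := (show n • z = x.1 from e) ▸ x.2
      exact h.of_nsmul hn
    · rintro ⟨z, rfl⟩
      exact ⟨z.1, rfl⟩
  have h6 : Nat.card (nsmulAddMonoidHom (α := B) n).ker
      = Nat.card (nsmulAddMonoidHom (α := T) n).ker := by
    refine Nat.card_congr ⟨fun x => ⟨⟨x.1, isOfFinAddOrder_iff_nsmul_eq_zero.mpr
      ⟨n, Nat.pos_of_ne_zero hn, x.2⟩⟩, Subtype.ext x.2⟩,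
      fun x => ⟨x.1.1, congrArg Subtype.val x.2⟩, fun _ => rfl, fun _ => rfl⟩
  refine ⟨?_, h6 ▸ Nat.card_pos.ne'⟩
  rw [← relIndex_mul_index (le_sup_left (b := T)), ← h4, relIndex_sup_left, relIndex, h5, h6,
    mul_comm, index_range]

lemma relIndex_nsmul (S : AddSubgroup B) [Module.Finite ℤ B] {n : ℕ} (hn : n ≠ 0) :
    (S.map (nsmulAddMonoidHom (α := B) n)).relIndex S =
      n ^ finrank ℤ S * Nat.card ↥(S ⊓ (nsmulAddMonoidHom (α := B) n).ker) ∧
      Nat.card ↥(S ⊓ (nsmulAddMonoidHom (α := B) n).ker) ≠ 0 := by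
  have : Module.Finite ℤ S := inferInstanceAs (Module.Finite ℤ S.toIntSubmodule)
  have h : Nat.card ↥(S ⊓ (nsmulAddMonoidHom (α := B) n).ker)
      = Nat.card (nsmulAddMonoidHom (α := S) n).ker :=
    Nat.card_congr ⟨fun x => ⟨⟨x.1, x.2.1⟩, Subtype.ext x.2.2⟩,
      fun x => ⟨x.1.1, x.1.2, congrArg Subtype.val x.2⟩, fun _ => rfl, fun _ => rfl⟩
  rw [relIndex, addSubgroupOf_map_nsmulAddMonoidHom_eq_range, h]
  exact index_nsmul S hn

/-- Herbrand quotient of an involution from ranks -/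
lemma herbrand_two [Module.Finite ℤ B] (D N : B →+ B) (hDN : ∀ a, D (N a) = 0)
    (hND : ∀ a, N (D a) = 0) (h2 : ∀ a, N a = D a + 2 • a)
    (hr : 2 * finrank ℤ D.ker + 1 ≤ finrank ℤ B) :
    2 * N.range.relIndex D.ker ≤ D.range.relIndex N.ker ∧ N.range.relIndex D.ker ≠ 0 := by
  obtain ⟨e0, t0⟩ := relIndex_nsmul D.ker two_ne_zero
  obtain ⟨e1, -⟩ := relIndex_nsmul N.ker two_ne_zero
  have ht : N.ker ⊓ (nsmulAddMonoidHom (α := B) 2).ker
      = D.ker ⊓ (nsmulAddMonoidHom (α := B) 2).ker := by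
    ext a
    simp only [mem_inf, AddMonoidHom.mem_ker, nsmulAddMonoidHom_apply, h2]
    exact and_congr_left fun h => by rw [h, add_zero]
  have m0 : D.ker.map (nsmulAddMonoidHom 2) = D.ker.map N := by
    ext x
    exact exists_congr fun a => and_congr_right fun ha => by
      rw [h2, show D a = 0 from ha, zero_add]; rfl
  have m1 : N.ker.map (nsmulAddMonoidHom 2) = N.ker.map D := by
    ext x
    constructor
    · rintro ⟨a, ha, rfl⟩
      refine ⟨-a, neg_mem ha, ?_⟩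
      have := (h2 a).symm.trans ha
      rw [map_neg, neg_eq_iff_add_eq_zero]; exact this
    · rintro ⟨a, ha, rfl⟩
      refine ⟨-a, neg_mem ha, ?_⟩
      have := (h2 a).symm.trans ha
      rw [map_neg, neg_eq_iff_add_eq_zero, add_comm]; exact this
  have hN : N.range ≤ D.ker := by rintro _ ⟨a, rfl⟩; exact hDN a
  have hD : D.range ≤ N.ker := by rintro _ ⟨a, rfl⟩; exact hND a
  have f0 := relIndex_map_eq N (le_top : D.ker ≤ ⊤)
  have f1 := relIndex_map_eq D (le_top : N.ker ≤ ⊤)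
  rw [← AddMonoidHom.range_eq_map, top_inf_eq] at f0 f1
  rw [m0, ← relIndex_mul_relIndex _ _ _ (map_le_range _ _) hN, f0] at e0
  rw [m1, ← relIndex_mul_relIndex _ _ _ (map_le_range _ _) hD, f1, sup_comm, ht] at e1
  have hne := mul_ne_zero_iff.mp (e0 ▸ mul_ne_zero (pow_ne_zero _ two_ne_zero) t0)
  refine ⟨Nat.le_of_mul_le_mul_left ?_ (Nat.pos_of_ne_zero hne.1), hne.2⟩
  rw [e1, mul_left_comm, e0, ← mul_assoc, ← pow_succ']
  refine Nat.mul_le_mul_right _ (Nat.pow_le_pow_right two_pos ?_)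
  have h3 := (LinearMap.ker D.toIntLinearMap).finrank_quotient_add_finrank
  rw [D.toIntLinearMap.quotKerEquivRange.finrank_eq] at h3
  have h4 : finrank ℤ (LinearMap.range D.toIntLinearMap) ≤ finrank ℤ N.ker.toIntSubmodule :=
    Submodule.finrank_mono hD
  change _ + finrank ℤ D.ker = _ at h3
  change _ ≤ finrank ℤ N.ker at h4
  omega

lemma herbrand_sub (D N : A →+ A) (U : AddSubgroup A) [Module.Finite ℤ U] (hDN : ∀ a, D (N a) = 0)
    (hND : ∀ a, N (D a) = 0) (h2 : ∀ a, N a = D a + 2 • a) (hD : ∀ a ∈ U, D a ∈ U)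
    (hN : ∀ a ∈ U, N a ∈ U) (hr : 2 * finrank ℤ ↥(U ⊓ D.ker) + 1 ≤ finrank ℤ U) :
    2 * (U.map N).relIndex (U ⊓ D.ker) ≤ (U.map D).relIndex (U ⊓ N.ker) ∧
      (U.map N).relIndex (U ⊓ D.ker) ≠ 0 := by
  have r : ∀ (F : A →+ A) (hF : ∀ a ∈ U, F a ∈ U),
      ((F.comp U.subtype).codRestrict U fun a => hF a a.2).range.map U.subtype = U.map F ∧
      ((F.comp U.subtype).codRestrict U fun a => hF a a.2).ker.map U.subtype = U ⊓ F.ker :=
    fun F hF => ⟨by
      ext x
      constructor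
      · rintro ⟨_, ⟨a, rfl⟩, rfl⟩; exact ⟨a, a.2, rfl⟩
      · rintro ⟨a, ha, rfl⟩; exact ⟨_, ⟨⟨a, ha⟩, rfl⟩, rfl⟩, by
      ext x
      constructor
      · rintro ⟨a, ha, rfl⟩; exact ⟨a.2, congrArg Subtype.val ha⟩
      · rintro ⟨h, h'⟩; exact ⟨⟨x, h⟩, Subtype.ext h', rfl⟩⟩
  have h := herbrand_two ((D.comp U.subtype).codRestrict U fun a => hD a a.2)
    ((N.comp U.subtype).codRestrict U fun a => hN a a.2) (fun a => Subtype.ext (hDN a))
    (fun a => Subtype.ext (hND a)) (fun a => Subtype.ext (h2 a)) (by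
      rwa [← (r D hD).2, ← (equivMapOfInjective _ _
        U.subtype_injective).toIntLinearEquiv.finrank_eq] at hr)
  rwa [← relIndex_map_map_of_injective _ _ U.subtype_injective, (r N hN).1, (r D hD).2,
    ← relIndex_map_map_of_injective _ _ U.subtype_injective, (r D hD).1, (r N hN).2] at h

/-- the ambiguous class count -/
theorem hasse_abs (D N : A →+ A) (D' N' : I →+ I) (φ : A →+ I)
    (hD : ∀ a, φ (D a) = D' (φ a)) (hN : ∀ a, φ (N a) = N' (φ a))
    (hDN : ∀ a, D (N a) = 0) (hND : ∀ a, N (D a) = 0)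
    (hDN' : ∀ a, D' (N' a) = 0) (hND' : ∀ a, N' (D' a) = 0) [φ.range.FiniteIndex]
    (h90 : ∀ a, N a = 0 → ∃ b, a = D b)
    (hU : 2 * (φ.ker.map N).relIndex (φ.ker ⊓ D.ker) ≤ (φ.ker.map D).relIndex (φ.ker ⊓ N.ker))
    (hU0 : (φ.ker.map N).relIndex (φ.ker ⊓ D.ker) ≠ 0)
    (h2 : (D.ker.map φ ⊔ N'.range).relIndex D'.ker ≤ 2)
    {x : A} (hx : D x = 0) {y : I} (hy : φ x = N' y) : ∃ a, x = N a := by
  set P := φ.range with hP
  set U := φ.ker with hUd
  set P0 := D.ker.map φ with hP0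
  let π : I →+ I ⧸ P := QuotientAddGroup.mk' P
  have hsurj : Function.Surjective π := QuotientAddGroup.mk'_surjective P
  have hker : π.ker = P := QuotientAddGroup.ker_mk' P
  let DC : I ⧸ P →+ I ⧸ P := QuotientAddGroup.map P P D' (by
    rintro _ ⟨v, rfl⟩; exact ⟨_, hD v⟩)
  have eD : ∀ x, DC (π x) = π (D' x) := fun _ => rfl
  have c1 : DC.range.index = (D'.range ⊔ P).index := by
    have h := index_map (H := D'.range) π
    rw [AddMonoidHom.range_eq_top.mpr hsurj, index_top, mul_one, hker] at h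
    rw [← h]
    congr 1
    ext c
    constructor
    · rintro ⟨c, rfl⟩
      obtain ⟨z, rfl⟩ := hsurj c
      exact ⟨_, ⟨z, rfl⟩, rfl⟩
    · rintro ⟨_, ⟨z, rfl⟩, rfl⟩
      exact ⟨π z, rfl⟩
  have c2 : Nat.card DC.ker = P.relIndex (P.comap D') := by
    have h : (P.comap D').map π = DC.ker := by
      ext c
      obtain ⟨z, rfl⟩ := hsurj c
      rw [AddMonoidHom.mem_ker, eD, ← AddMonoidHom.mem_ker, hker]
      refine ⟨?_, fun h => ⟨z, h, rfl⟩⟩
      rintro ⟨w, hw, e⟩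
      rw [← hker, AddMonoidHom.mem_ker, ← eD, ← e, eD, ← AddMonoidHom.mem_ker, hker]
      exact hw
    rw [← h, ← relIndex_bot_left, ← relIndex_comap, AddMonoidHom.comap_bot, hker]
  have hQM : D'.range ⊔ P ≤ P0.comap N' := sup_le
    (by rintro _ ⟨z, rfl⟩; rw [mem_comap, hND']; exact zero_mem _)
    (by rintro _ ⟨a, rfl⟩; exact ⟨N a, hDN a, hN a⟩)
  have hP0I : P0 ≤ D'.ker := by
    rintro _ ⟨a, ha, rfl⟩
    rw [AddMonoidHom.mem_ker, ← hD, show D a = 0 from ha, map_zero]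
  have e1 := relIndex_mul_index hQM
  have e2 := relIndex_mul_relIndex P0 (P0 ⊔ N'.range) D'.ker le_sup_left
    (sup_le hP0I (by rintro _ ⟨z, rfl⟩; exact hDN' z))
  rw [relIndex_sup_left, ← index_comap] at e2
  have e3 := relIndex_mul_relIndex P (P ⊔ D'.ker) (P.comap D') le_sup_left (sup_le
    (by rintro _ ⟨a, rfl⟩; exact ⟨_, hD a⟩)
    (fun z hz => by rw [mem_comap, show D' z = 0 from hz]; exact zero_mem _))
  rw [relIndex_sup_left, ← c2, ← index_range, c1, ← e1] at e3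
  have e4 := relIndex_mul_relIndex P0 (P ⊓ D'.ker) D'.ker
    (le_inf (map_le_range _ _) hP0I) inf_le_right
  have e5 : P0.relIndex (P ⊓ D'.ker) = (U.map D).relIndex (U ⊓ N.ker) := by
    have h : (D'.ker.comap φ).map D = U ⊓ N.ker := by
      apply le_antisymm
      · rintro _ ⟨a, ha, rfl⟩
        exact ⟨(hD a).trans ha, hND a⟩
      · rintro a ⟨ha, ha'⟩
        obtain ⟨b, rfl⟩ := h90 a ha'
        exact ⟨b, (hD b).symm.trans ha, rfl⟩
    rw [← h, ← map_comap_eq, ← relIndex_comap, ← relIndex_comap, hP0, comap_map_eq, comap_map_eq,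
      sup_comm]
  rw [inf_relIndex_right, e5, ← e2] at e4
  have e6 := relIndex_mul_relIndex (U.map N) (U ⊓ N.range) (U ⊓ D.ker)
    (le_inf (by rintro _ ⟨a, ha, rfl⟩; exact (hN a).trans (by rw [ha, map_zero]))
      (map_le_range _ _)) (inf_le_inf_left _ (by rintro _ ⟨a, rfl⟩; exact hDN a))
  rw [← e6] at hU hU0
  obtain ⟨g0, u0⟩ := mul_ne_zero_iff.mp hU0
  have e7 : (P ⊔ D'.ker).relIndex (P.comap D') ≤ (U.map N).relIndex (U ⊓ N.range) := by
    let Z := (D'.comp (AddMonoidHom.fst I A) - φ.comp (AddMonoidHom.snd I A)).ker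
    have hZ : ∀ z : I × A, z ∈ Z ↔ D' z.1 = φ z.2 := fun z => by simp [Z, sub_eq_zero]
    have hZ' : Z.map (AddMonoidHom.fst I A) = P.comap D' := by
      ext z
      constructor
      · rintro ⟨w, hw, rfl⟩
        exact ⟨_, ((hZ w).mp hw).symm⟩
      · rintro ⟨a, ha⟩
        exact ⟨(z, a), (hZ _).mpr ha.symm, rfl⟩
    have hle : Z.map (N.comp (AddMonoidHom.snd I A)) ≤ U ⊓ N.range := by
      rintro _ ⟨⟨z, a⟩, hz, rfl⟩
      exact ⟨(hN a).trans (((hZ _).mp hz) ▸ hND' z), a, rfl⟩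
    refine le_trans ?_ (relIndex_le_of_le_right hle g0)
    have h0' := fun h => g0 (relIndex_eq_zero_of_le_right hle h)
    rw [← hZ', ← relIndex_comap, ← relIndex_comap, ← inf_relIndex_right (K := Z)
      (H := comap (N.comp _) _)] at *
    refine relIndex_le_of_le_left ?_ h0'
    rintro ⟨z, a⟩ ⟨⟨u, hu, e⟩, hz⟩
    have hu : φ u = 0 := hu
    have e : N u = N a := e
    obtain ⟨b, e'⟩ := h90 (a - u) (by rw [map_sub, e, sub_self])
    refine mem_sup.mpr ⟨φ b, ⟨b, rfl⟩, z - φ b, ?_, by simp⟩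
    rw [AddMonoidHom.mem_ker, map_sub, ← hD, ← e', map_sub, hu, sub_zero, sub_eq_zero]
    exact (hZ _).mp hz
  have a0 : P.relIndex D'.ker ≠ 0 := FiniteIndex.index_ne_zero
  have k0 : (D'.range ⊔ P).relIndex (P0.comap N') ≠ 0 := by
    have : (D'.range ⊔ P).FiniteIndex := finiteIndex_of_le le_sup_right
    exact FiniteIndex.index_ne_zero
  have key : (D'.range ⊔ P).relIndex (P0.comap N') * (U ⊓ N.range).relIndex (U ⊓ D.ker) ≤ 1 := by
    generalize (D'.range ⊔ P).relIndex (P0.comap N') = k at *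
    generalize (U ⊓ N.range).relIndex (U ⊓ D.ker) = u at *
    generalize (U.map N).relIndex (U ⊓ N.range) = g at *
    generalize P.relIndex D'.ker = a at *
    generalize (P0.comap N').index = m at *
    generalize (P0 ⊔ N'.range).relIndex D'.ker = j at *
    generalize (P ⊔ D'.ker).relIndex (P.comap D') = b at *
    generalize (U.map D).relIndex (U ⊓ N.ker) = h at *
    refine Nat.le_of_mul_le_mul_left (c := 2 * g * a) ?_ (by positivity)
    calc 2 * g * a * (k * u) = k * (2 * (g * u) * a) := by ring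
      _ ≤ k * (h * a) := by gcongr
      _ = a * b * j := by rw [e4, ← mul_assoc, e3]
      _ ≤ a * g * 2 := by gcongr
      _ = _ := by ring
  obtain ⟨k1, u1⟩ := mul_eq_one.mp (le_antisymm key (Nat.pos_of_ne_zero (mul_ne_zero k0 u0)))
  rw [relIndex_eq_one] at k1 u1
  obtain ⟨_, ⟨z, rfl⟩, _, ⟨a, rfl⟩, e⟩ := mem_sup.mp (k1 (show y ∈ _ from ⟨x, hx, hy⟩))
  obtain ⟨-, b, hb⟩ := u1 (show x - N a ∈ _ from ⟨show φ _ = 0 by
    rw [map_sub, hy, ← e, map_add, hND', hN, zero_add, sub_self], show D _ = 0 by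
    rw [map_sub, hx, hDN, sub_self]⟩)
  exact ⟨b + a, by rw [map_add, hb, sub_add_cancel]⟩

end

end Pool.Agent.Lib.Tower15
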